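import Mathlib
import Pool.Agent.K9h74.LF.Main

set_option autoImplicit false

/-!
# Lipschitz-free spaces over uniformly separated metric spaces are quantitatively weakly
sequentially complete

All definitions are in `Pool.Agent.K9h74.LF.Def`: `Lip0`, `dlt`, `LFree`, `FreeSp` (the
Lipschitz-free space), `wosc` (the quantity `δ(x_n)`), `ca`, `clust`, `distX`, `wck`, `IsWsc`
(`c`-weak sequential completeness), `IsSchur` (the `c`-Schur property).

Idea. Approximate the members of the sequence by finitely supported measures `μ_l`.

* (Bounded part.) If the first moments of `|μ_l|` are bounded, choose a finite set `T` which is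
  almost optimal for the limit of `∫ dist(b, T) d|μ_l|`. Then, passing to a subsequence, up to a
  small error the points `b` of the support of `μ_l` are not much closer to the supports of the
  earlier measures than to `T`. So any 1-Lipschitz functions `h_l` vanishing on `T`, restricted to
  these points and multiplied by `± 1/5`, fit together to a 1-Lipschitz function on the union of
  the supports. Hence the distance of `μ_l` to the span of `δ(t)`, `t ∈ T`, is controlled by the
  weak oscillation.
* (Escaping part.) Outside of large balls one uses a gliding hump argument.
-/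

namespace Pool.Agent.Results.MP_d136d9_an.QuantSchur

open Pool.Agent.K9h74.LF

universe u v

/-- For `𝕜 = ℝ` or `ℂ` and every uniformly separated metric space `M` (with any base point `o`),
the Lipschitz-free space `F(M)` over `𝕜` is `27`-weakly sequentially complete and has the
`109`-Schur property. -/
theorem result (𝕜 : Type v) [RCLike 𝕜] (M : Type u) [MetricSpace M] (o : M)
    (hM : ∃ s : ℝ, 0 < s ∧ ∀ x y : M, x ≠ y → s ≤ dist x y) :
    IsWsc 𝕜 (FreeSp 𝕜 M o) 27 ∧ IsSchur 𝕜 (FreeSp 𝕜 M o) 109 := by
  obtain ⟨s, hs, hsep⟩ := hM
  exact ⟨isWsc_free o s hs hsep, isSchur_free o s hs hsep⟩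

end Pool.Agent.Results.MP_d136d9_an.QuantSchur
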